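import Pool.Agent.helper10.QT.SpecY

/-!
# Project AT (MP_bf63dc_nt), row QSQ: a third of all quotients of a finite set are good
-/

set_option autoImplicit false

namespace Pool.Agent.AT

open Finset Pool.Agent.helper85.FC

theorem QSQ_den {c : ℤ} {x : ℚ} (hx : PrTo c x) {p : ℕ} (hp : p.Prime) (hpc : (p : ℤ) ∣ c) :
    ¬ p ∣ x.den ∧ ¬ (p : ℤ) ∣ x.num := by
  have := Fact.mk hp
  have h0 : padicValRat p x = 0 := hx.2 p hp hpc
  have hcop : Nat.Coprime x.num.natAbs x.den := x.reduced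
  have hnum : x.num ≠ 0 := (Rat.num_pos.2 hx.1).ne'
  have hval : padicValRat p x = (padicValInt p x.num : ℤ) - padicValNat p x.den := rfl
  rw [hval] at h0
  by_cases h1 : p ∣ x.den
  · exfalso
    have h2 : 1 ≤ padicValNat p x.den := one_le_padicValNat_of_dvd x.den_ne_zero h1
    have h3 : padicValInt p x.num ≠ 0 := by omega
    have h4 : (p : ℤ) ∣ x.num := by
      by_contra hcon
      exact h3 (padicValInt.eq_zero_of_not_dvd hcon)
    have h5 : p ∣ x.num.natAbs := Int.natCast_dvd.1 h4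
    have h6 := Nat.dvd_gcd h5 h1
    rw [hcop.gcd_eq_one] at h6
    exact hp.one_lt.ne' (Nat.dvd_one.1 h6)
  · refine ⟨h1, fun h4 => ?_⟩
    have h5 : padicValNat p x.den = 0 := padicValNat.eq_zero_of_not_dvd h1
    have h6 : 1 ≤ padicValInt p x.num := by
      have h7 : p ∣ x.num.natAbs := Int.natCast_dvd.1 h4
      exact one_le_padicValNat_of_dvd (Int.natAbs_ne_zero.2 hnum) h7
    omega

theorem QSQ_int {x : ℚ} {D : ℕ} (hx : 0 < x) (hD : x.den ∣ D) (hD0 : 0 < D) :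
    ∃ m : ℕ, 0 < m ∧ (m : ℚ) = x * D ∧ ∀ p : ℕ, p.Prime → ¬ p ∣ D → ¬ (p : ℤ) ∣ x.num → ¬ p ∣ m := by
  obtain ⟨e, he⟩ := hD
  have he0 : 0 < e := by
    rcases Nat.eq_zero_or_pos e with h | h
    · rw [h, mul_zero] at he; omega
    · exact h
  have hnum : 0 < x.num := Rat.num_pos.2 hx
  refine ⟨x.num.natAbs * e, Nat.mul_pos (Int.natAbs_pos.2 hnum.ne') he0, ?_, ?_⟩
  · have h1 : ((x.num.natAbs : ℕ) : ℚ) = (x.num : ℚ) := by
      have h0 : ((x.num.natAbs : ℕ) : ℤ) = x.num := Int.natAbs_of_nonneg hnum.le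
      have h01 : (((x.num.natAbs : ℕ) : ℤ) : ℚ) = (x.num : ℚ) := by rw [h0]
      rw [← h01, Int.cast_natCast]
    have h2 : x * x.den = x.num := Rat.mul_den_eq_num x
    rw [he]
    push_cast
    rw [h1, ← mul_assoc, h2]
  · intro p hp hpD hpn hpm
    rcases (hp.dvd_mul).1 hpm with h | h
    · exact hpn (Int.natCast_dvd.2 h)
    · exact hpD (he ▸ Dvd.dvd.mul_left h _)

theorem QSQ_pair {c : ℤ} {s t : ℕ} (hs : 0 < s) (h : Pair (s, c) (t, c)) :
    s ≠ t ∧ {pq : ℕ × ℕ | pq.1.Prime ∧ pq.2.Prime ∧ (t : ℤ) * (pq.1 - c) = s * (pq.2 - c)}.Infinite := by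
  have hd : 0 < Nat.gcd s t := Nat.gcd_pos_of_pos_left _ hs
  obtain ⟨-, -, hc, -, -, -, -, hinf⟩ := h
  simp only at hc hinf
  obtain ⟨s', hs'⟩ := Nat.gcd_dvd_left s t
  obtain ⟨t', ht'⟩ := Nat.gcd_dvd_right s t
  generalize Nat.gcd s t = d at *
  have hdz : (d : ℤ) ≠ 0 := by exact_mod_cast hd.ne'
  have hval : ((t : ℤ) * c - s * c) / d = t' * c - s' * c := by
    have : (t : ℤ) * c - s * c = d * (t' * c - s' * c) := by
      rw [hs', ht']; push_cast; ring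
    rw [this, Int.mul_ediv_cancel_left _ hdz]
  have h1 : t / d = t' := by rw [ht', Nat.mul_div_cancel_left _ hd]
  have h2 : s / d = s' := by rw [hs', Nat.mul_div_cancel_left _ hd]
  rw [hval] at hc hinf
  rw [h1, h2] at hinf
  refine ⟨fun hst => hc ?_, hinf.mono ?_⟩
  · have : s' = t' := by
      have : d * s' = d * t' := by rw [← hs', ← ht', hst]
      exact Nat.eq_of_mul_eq_mul_left hd this
    rw [this]; ring
  · rintro ⟨p, q⟩ ⟨hp, hq, he⟩
    refine ⟨hp, hq, ?_⟩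
    simp only at he ⊢
    rw [hs', ht']
    push_cast
    linear_combination (d : ℤ) * he

open Classical in
theorem QSQ : QSQ_stmt := by
  intro hTHV hQP
  obtain ⟨C, δ, hC, hδ, hV⟩ := hTHV hQP
  refine ⟨C, δ, hC, hδ, ?_⟩
  intro c hc S hS
  set D : ℕ := ∏ x ∈ S, x.den with hDdef
  have hD0 : 0 < D := Finset.prod_pos (fun x _ => x.den_pos)
  have hDdvd : ∀ x ∈ S, x.den ∣ D := fun x hx => Finset.dvd_prod_of_mem _ hx
  have hDp : ∀ p : ℕ, p.Prime → (p : ℤ) ∣ c → ¬ p ∣ D := by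
    intro p hp hpc hpD
    obtain ⟨x, hx, hxp⟩ := (Prime.dvd_finsetProd_iff hp.prime _).1 hpD
    exact (QSQ_den (hS x hx) hp hpc).1 hxp
  have hex : ∀ x ∈ S, ∃ m : ℕ, 0 < m ∧ (m : ℚ) = x * D ∧
      ∀ p : ℕ, p.Prime → ¬ p ∣ D → ¬ (p : ℤ) ∣ x.num → ¬ p ∣ m :=
    fun x hx => QSQ_int (hS x hx).1 (hDdvd x hx) hD0
  choose! s hs0 hsD hsp using hex
  have hDq : (D : ℚ) ≠ 0 := by exact_mod_cast hD0.ne'
  have hinj : Set.InjOn (fun x : ℚ => ((s x, c) : ℕ × ℤ)) (S : Set ℚ) := by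
    intro x hx y hy hxy
    have h1 : s x = s y := (Prod.mk.inj hxy).1
    have h2 : x * D = y * D := by rw [← hsD x hx, ← hsD y hy, h1]
    exact mul_right_cancel₀ hDq h2
  set V : Finset (ℕ × ℤ) := S.image (fun x : ℚ => ((s x, c) : ℕ × ℤ)) with hVdef
  have hcard : #V = #S := Finset.card_image_of_injOn hinj
  have hmemV : ∀ f ∈ V, ∃ x ∈ S, f = (s x, c) := by
    intro f hf
    obtain ⟨x, hx, hxf⟩ := Finset.mem_image.1 hf
    exact ⟨x, hx, hxf.symm⟩
  have hpos : ∀ f ∈ V, 0 < f.1 := by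
    intro f hf
    obtain ⟨x, hx, rfl⟩ := hmemV f hf
    exact hs0 x hx
  have hadm : ∀ f : Fin 4 → ℕ × ℤ, (∀ i, f i ∈ V) → Adm f := by
    intro f hf p hp
    by_cases hpc : (p : ℤ) ∣ c
    · refine ⟨1, fun i hdiv => ?_⟩
      obtain ⟨x, hx, hfx⟩ := hmemV (f i) (hf i)
      rw [hfx] at hdiv
      simp only [Nat.cast_one, mul_one] at hdiv
      have h1 : (p : ℤ) ∣ (s x : ℤ) := (dvd_add_left hpc).1 hdiv
      have h2 : p ∣ s x := Int.natCast_dvd_natCast.1 h1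
      exact hsp x hx p hp (hDp p hp hpc) (QSQ_den (hS x hx) hp hpc).2 h2
    · refine ⟨0, fun i hdiv => ?_⟩
      obtain ⟨x, hx, hfx⟩ := hmemV (f i) (hf i)
      rw [hfx] at hdiv
      simp only [Nat.cast_zero, mul_zero, zero_add] at hdiv
      exact hpc hdiv
  have hmain := hV V hpos hadm
  rw [hcard] at hmain
  refine hmain.trans ?_
  have hsub : (V ×ˢ V).filter (fun p => Pair p.1 p.2) ⊆
      ((S ×ˢ S).filter (fun p => p.1 ≠ p.2 ∧ GoodR c (p.1 / p.2))).image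
        (fun p : ℚ × ℚ => (((s p.1, c), (s p.2, c)) : (ℕ × ℤ) × (ℕ × ℤ))) := by
    rintro ⟨f, g⟩ hfg
    obtain ⟨hfg1, hfg2⟩ := Finset.mem_filter.1 hfg
    obtain ⟨hf, hg⟩ := Finset.mem_product.1 hfg1
    obtain ⟨x, hx, rfl⟩ := hmemV f hf
    obtain ⟨y, hy, rfl⟩ := hmemV g hg
    obtain ⟨hne, hinf⟩ := QSQ_pair (hs0 x hx) hfg2
    refine Finset.mem_image.2 ⟨(x, y), Finset.mem_filter.2 ⟨Finset.mem_product.2 ⟨hx, hy⟩, ?_, ?_⟩, rfl⟩
    · intro hxy
      simp only at hxy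
      exact hne (by rw [hxy])
    · refine hinf.mono ?_
      rintro ⟨p, q⟩ ⟨hp, hq, he⟩
      refine ⟨hp, hq, ?_⟩
      simp only at he ⊢
      have hy0 : y ≠ 0 := (hS y hy).1.ne'
      have he' : ((s y : ℕ) : ℚ) * ((p : ℚ) - c) = (s x : ℕ) * ((q : ℚ) - c) := by exact_mod_cast he
      rw [hsD x hx, hsD y hy] at he'
      have h3 : y * ((p : ℚ) - c) = x * ((q : ℚ) - c) := by
        refine mul_left_cancel₀ hDq ?_
        linear_combination he'
      field_simp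
      linear_combination h3
  have hle := (Finset.card_le_card hsub).trans Finset.card_image_le
  exact_mod_cast hle

end Pool.Agent.AT
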